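import Mathlib
import Pool.Agent.H27.NagQ

namespace Pool.Agent.Results.MP_a3803f_an.Raise

open Pool.Agent.H27.NagQ

theorem result (n : ℕ) (hn : 3 ≤ n) : ∃ f : OpenPartialHomeomorph (En n) (En n),
    IsConnected f.source ∧ IsConnected f.target ∧ IsQC f ∧
    (∃ U : Set (En n), IsOpen U ∧ U.Nonempty ∧ U ⊆ f.source ∧ ∀ x ∈ U, f x = x) ∧
    ∃ E : Set (En n), E ⊆ f.source ∧ dimN E ≤ ((n - 1 : ℕ) : ℕ∞) ∧
      dimN (f '' E) = (n : ℕ∞) := by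
  obtain ⟨m, rfl⟩ : ∃ m, n = m + 2 := ⟨n - 2, by omega⟩
  exact main m

end Pool.Agent.Results.MP_a3803f_an.Raise
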